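import Pool.Agent.Helper32.OIP.Goals

/-!
# Packet OIP-MA3 (project of helper32, MP_fc0446_an): independence
-/

namespace Pool.Agent.Helper94.OIP

open MeasureTheory Pool.Agent.Helper32.OIP Pool.Agent.Helper58.Orb

/-- two events depending on disjoint sets of coordinates -/
lemma two (h2 : GoalMA2) (A E : Type) [MeasurableSpace E] (ν : Measure E) [IsProbabilityMeasure ν]
    (W₁ W₂ : Set A) (G₁ G₂ : Set (A → E)) (hd : Disjoint W₁ W₂) (m1 : MeasurableSet G₁)
    (m2 : MeasurableSet G₂) (d1 : DependsOn (fun z => z ∈ G₁) W₁)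
    (d2 : DependsOn (fun z => z ∈ G₂) W₂) :
    (pm A ν).real (G₁ ∩ G₂) = (pm A ν).real G₁ * (pm A ν).real G₂ := by
  haveI hp : IsProbabilityMeasure (pm A ν) := by
    unfold pm
    infer_instance
  have h3 := h2.2.2.1 A E ν W₁
  have h4 : (fun (p : (A → E) × (A → E)) => glue W₁ p.1 p.2) ⁻¹' (G₁ ∩ G₂) = G₁ ×ˢ G₂ := by
    ext p
    rw [Set.mem_preimage, Set.mem_inter_iff, Set.mem_prod]
    have e1 : (glue W₁ p.1 p.2 ∈ G₁) = (p.1 ∈ G₁) := by
      apply d1
      intro a ha
      unfold glue
      rw [if_pos ha]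
    have e2 : (glue W₁ p.1 p.2 ∈ G₂) = (p.2 ∈ G₂) := by
      apply d2
      intro a ha
      unfold glue
      rw [if_neg (fun h => Set.disjoint_left.mp hd h ha)]
    rw [e1, e2]
  have h5 := h3.measure_preimage ((m1.inter m2).nullMeasurableSet)
  rw [h4, Measure.prod_prod] at h5
  unfold Measure.real
  rw [← h5, ENNReal.toReal_mul]

theorem ma3 : GoalMA3 := by
  intro h2 A E ι _ _ ν _ W G s
  haveI hp : IsProbabilityMeasure (pm A ν) := by
    unfold pm
    infer_instance
  induction s using Finset.induction_on with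
  | empty =>
    intro _ _ _
    simp
  | insert i s hi ih =>
    intro hd hm hdep
    have ih' := ih (fun j hj k hk hjk => hd j (Finset.mem_insert_of_mem hj) k
      (Finset.mem_insert_of_mem hk) hjk) (fun j hj => hm j (Finset.mem_insert_of_mem hj))
      (fun j hj => hdep j (Finset.mem_insert_of_mem hj))
    rw [Finset.prod_insert hi, ← ih', Finset.set_biInter_insert]
    apply two h2 A E ν (W i) (⋃ j ∈ s, W j) (G i) (⋂ j ∈ s, G j)
    · rw [Set.disjoint_iUnion₂_right]
      intro j hj
      apply hd i (Finset.mem_insert_self i s) j (Finset.mem_insert_of_mem hj)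
      rintro rfl
      exact hi hj
    · exact hm i (Finset.mem_insert_self i s)
    · exact Finset.measurableSet_biInter s (fun j hj => hm j (Finset.mem_insert_of_mem hj))
    · exact hdep i (Finset.mem_insert_self i s)
    · intro x y hxy
      have h6 : ∀ j ∈ s, (x ∈ G j) = (y ∈ G j) := by
        intro j hj
        apply hdep j (Finset.mem_insert_of_mem hj)
        intro a ha
        apply hxy
        exact Set.mem_biUnion hj ha
      show (x ∈ ⋂ j ∈ s, G j) = (y ∈ ⋂ j ∈ s, G j)
      rw [Set.mem_iInter₂, Set.mem_iInter₂]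
      apply propext
      constructor
      · intro h j hj
        rw [← h6 j hj]
        exact h j hj
      · intro h j hj
        rw [h6 j hj]
        exact h j hj

end Pool.Agent.Helper94.OIP
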